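import Mathlib
import Pool.Agent.Helper278.TB.Final

set_option autoImplicit false

namespace Pool.Agent.Results.MP_bfc4df_al.BranchT

/-- Rooted trees. `V` is the vertex set, `r` the root and `p` the parent map (with `p r = r`): no
vertex but the root is its own parent, the ancestors of every vertex reach the root, every vertex
has finitely many children and at least two children. -/
def IsTree (V : Type) (r : V) (p : V → V) : Prop :=
  p r = r ∧ (∀ v : V, p v = v → v = r) ∧ (∀ v : V, ∃ n : ℕ, p^[n] v = r) ∧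
    (∀ v : V, {w : V | w ≠ r ∧ p w = v}.Finite) ∧
    (∀ v : V, ∃ a b : V, a ≠ b ∧ a ≠ r ∧ b ≠ r ∧ p a = v ∧ p b = v)

/-- Level `n`: the vertices at distance exactly `n` from the root `r`. -/
def level (V : Type) (r : V) (p : V → V) (n : ℕ) : Set V :=
  {v : V | p^[n] v = r ∧ ∀ k < n, p^[k] v ≠ r}

/-- The `n`-th rigid level stabilizer: the subgroup generated by the elements that, for some vertex
`v` of level `n`, fix every vertex other than `v` and its descendants. -/
def ristLevel (G : Type) [Group G] (V : Type) [MulAction G V] (r : V) (p : V → V) (n : ℕ) :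
    Subgroup G :=
  Subgroup.closure {g : G | ∃ v ∈ level V r p n, ∀ u : V, (∀ k : ℕ, p^[k] u ≠ v) → g • u = u}

/-- `G` is a branch group: it acts faithfully, by automorphisms and transitively on every level, on
a rooted tree as above, and all its rigid level stabilizers have finite index. -/
def IsBranch (G : Type) [Group G] : Prop :=
  ∃ (V : Type) (_ : MulAction G V) (r : V) (p : V → V), IsTree V r p ∧
    (∀ (g : G) (v : V), p (g • v) = g • p v) ∧
    (∀ g : G, (∀ v : V, g • v = v) → g = 1) ∧
    (∀ n : ℕ, ∀ v ∈ level V r p n, ∀ w ∈ level V r p n, ∃ g : G, g • v = w) ∧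
    (∀ n : ℕ, (ristLevel G V r p n).FiniteIndex)

/-- Kazhdan's property (T) of a discrete group. `H ≃ₗᵢ[ℂ] H` is the group of all unitary
operators (linear isometries of `H` onto `H`) of the complex Hilbert space `H`. -/
def PropertyT (G : Type) [Group G] : Prop :=
  ∃ (S : Finset G) (ε : ℝ), 0 < ε ∧
    ∀ (H : Type) [NormedAddCommGroup H] [InnerProductSpace ℂ H] [CompleteSpace H]
      (ρ : G →* (H ≃ₗᵢ[ℂ] H)), (∃ x : H, ‖x‖ = 1 ∧ ∀ s ∈ S, ‖ρ s x - x‖ < ε) →
      ∃ x : H, x ≠ 0 ∧ ∀ g : G, ρ g x = x

open Pool.Agent.Helper278.TB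

theorem propertyT_of {G : Type} [Group G]
    (h : ∃ (S : Finset G) (ε : ℝ), 0 < ε ∧
      ∀ (H : Type) [NormedAddCommGroup H] [InnerProductSpace ℂ H] [CompleteSpace H]
        (ρ : G →* unitary (H →L[ℂ] H)),
        (∃ x : H, ‖x‖ = 1 ∧ ∀ s ∈ S, ‖(ρ s : H →L[ℂ] H) x - x‖ < ε) →
        ∃ x : H, x ≠ 0 ∧ ∀ g : G, (ρ g : H →L[ℂ] H) x = x) : PropertyT G := by
  obtain ⟨S, ε, hε, h⟩ := h
  refine ⟨S, ε, hε, ?_⟩
  intro H _ _ _ ρ hx
  exact h H ((Unitary.linearIsometryEquiv (𝕜 := ℂ) (H := H)).symm.toMonoidHom.comp ρ) hx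

/-- The construction over a finite field `K` with at least 256 elements. -/
theorem main (K : Type) [Field K] [Fintype K] [DecidableEq K] (hK : 256 ≤ Fintype.card K) :
    ∃ (G : Type) (_ : Group G), IsBranch G ∧ PropertyT G := by
  refine ⟨G K, inferInstance, ⟨List (B K), inferInstance, [], List.dropLast,
    ⟨rfl, ?_, ?_, ?_, ?_⟩, ?_, ?_, ?_, ?_⟩, propertyT_of (propT_G hK ln_add pair_all)⟩
  · intro v h
    by_contra hv
    have h1 := congrArg List.length h
    rw [List.length_dropLast] at h1
    have h2 : 0 < v.length := List.length_pos_iff.mpr hv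
    omega
  · intro v
    exact ⟨v.length, ((level_iff v.length v).mpr rfl).1⟩
  · intro v
    apply (Set.finite_range (fun b : B K => v ++ [b])).subset
    rintro w ⟨hw, rfl⟩
    exact ⟨w.getLast hw, List.dropLast_append_getLast hw⟩
  · intro v
    refine ⟨v ++ [fun _ => 0], v ++ [fun _ => 1], ?_, ?_, ?_, ?_, ?_⟩
    · intro h
      have h1 := List.append_cancel_left h
      have h2 := congrFun (List.singleton_inj.mp h1) 0
      exact zero_ne_one h2
    · simp
    · simp
    · simp
    · simp
  · rintro ⟨g, hg⟩ v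
    exact G_dropLast g hg v
  · rintro ⟨g, hg⟩ h
    apply Subtype.ext
    apply Equiv.ext
    intro v
    exact h v
  · intro n v h1 w h2
    have hv := (level_iff n v).mp h1
    have hw := (level_iff n w).mp h2
    obtain ⟨g, hg, e⟩ := level_trans v w (hv.trans hw.symm)
    exact ⟨⟨g, hg⟩, e⟩
  · intro n
    have e : {g : G K | ∃ v ∈ level (List (B K)) [] List.dropLast n,
          ∀ u : List (B K), (∀ k : ℕ, List.dropLast^[k] u ≠ v) → g • u = u} =
        {g : G K | ∃ v : List (B K), v.length = n ∧
          ∀ u : List (B K), ¬ v <+: u → (g : Equiv.Perm (List (B K))) u = u} := by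
      ext g
      simp only [Set.mem_ofPred_eq, desc_iff]
      constructor
      · rintro ⟨v, h1, h3⟩
        exact ⟨v, (level_iff n v).mp h1, h3⟩
      · rintro ⟨v, h1, h3⟩
        exact ⟨v, (level_iff n v).mpr h1, h3⟩
    unfold ristLevel
    rw [e]
    exact RL_index (K := K) n

/-- There is a branch group with Kazhdan's property (T). -/
theorem result : ∃ (G : Type) (_ : Group G), IsBranch G ∧ PropertyT G := by
  have : Fact (Nat.Prime 257) := ⟨by norm_num⟩
  exact main (ZMod 257) (by rw [ZMod.card]; norm_num)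

end Pool.Agent.Results.MP_bfc4df_al.BranchT
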